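import Pool.Agent.Mane.Final

namespace Pool.Agent.Results.MP_82af14_an.SphereCounterexample

open Pool.Agent.Mane

/-- **Counterexample to Mañé's characterisation of `c_u` by connecting orbits.**
The closed manifold `M = S³` carries a smooth, convex and superlinear Lagrangian `L` such that, for
its lift to the universal cover of `M` (in the proof: the identity of `S³`, which is shown to be
simply connected), the infimum `j` of the energies `h` for which some point can be joined to every
point by a trajectory of energy `h` is strictly smaller than the critical value `c = c_u`, the
infimum of the `k` such that every closed absolutely continuous curve has nonnegative
`(L + k)`-action. -/
theorem result : ViolatesManeEquality (EuclideanSpace ℝ (Fin 3)) S3 := violates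

end Pool.Agent.Results.MP_82af14_an.SphereCounterexample
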